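import Pool.Agent.Helper60.QL.Defs

/-!
# Project AC (MP_fb29e9_nt): ovals with nowhere vanishing affine curvature, almost every lattice, the twentieth moment. Definitions

Frames `f = (e₁, e₂)` as in Helper60.LT (`Fr`, `Tf`, `xf`, `yf`, `df`, `vf`, `fr`); `h` homogeneous of degree one, `p = sl h θ` its slice in the direction `θ`, `p_j` the derivatives of `p` at `0`.
For `f = fr θ y T x`: `h (e₁ + τ e₂) = T (1 + x τ) p(y τ / (1 + x τ)) = T p₀ + T (x p₀ + y p₁) τ + A₂ τ² + A₃ τ³ + A₄ τ⁴ + ..` with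
`A₂ = T p₂ y² / 2`, `A₃ = A₂ (- x + β y)`, `A₄ = A₃² / A₂ - κ A₂ y²`, `β = p₃/(3 p₂)`, `κ = β² - p₄/(12 p₂)`. For `κ > 0` and `y > 0` the frame is a function of `θ` and `A = (A₂, A₃, A₄)`: `fA h θ A`.
With `ρ = H + H''`: `36 p₂² κ = 9 ρ² + 4 ρ'² - 3 ρ ρ''` (the disc: `κ = 1/4`).
-/

open MeasureTheory Real Set Filter Topology

set_option autoImplicit false

namespace Pool.Agent.Helper3.AC

open Pool.Agent.Helper22.AE
open Pool.Agent.Helper92.GC (dt tp Tq uu tt arc dd)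
open Pool.Agent.Helper75.TW (m20)
open Pool.Agent.Helper60.LT (Fr Tf xf yf df vf fr sl Cv Hom)
open Pool.Agent.Helper60.QL (R3)

/-- the second derivative of the slice at `0` -/
noncomputable def p2 (h : ℝ × ℝ → ℝ) (θ : ℝ) : ℝ := deriv (deriv (sl h θ)) 0

/-- the third derivative of the slice at `0` -/
noncomputable def p3 (h : ℝ × ℝ → ℝ) (θ : ℝ) : ℝ := deriv (deriv (deriv (sl h θ))) 0

/-- the fourth derivative of the slice at `0` -/
noncomputable def p4 (h : ℝ × ℝ → ℝ) (θ : ℝ) : ℝ := deriv (deriv (deriv (deriv (sl h θ)))) 0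

/-- `β = p₃ / (3 p₂)` -/
noncomputable def be (h : ℝ × ℝ → ℝ) (θ : ℝ) : ℝ := p3 h θ / (3 * p2 h θ)

/-- `κ = β² - p₄ / (12 p₂)` -/
noncomputable def ka (h : ℝ × ℝ → ℝ) (θ : ℝ) : ℝ := be h θ ^ 2 - p4 h θ / (12 * p2 h θ)

/-- the class of phases: as in LT, the slices five times differentiable, `κ ≥ c₁` -/
structure HA (c₁ B : ℝ) (h : ℝ × ℝ → ℝ) : Prop where
  hom : Hom c₁ B h
  sm : ∀ θ, ContDiff ℝ 5 (sl h θ)
  d5 : ∀ θ τ, |τ| ≤ 1 → |deriv (deriv (deriv (deriv (deriv (sl h θ))))) τ| ≤ B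
  ka : ∀ θ, c₁ ≤ ka h θ

/-- the height with `y² = (A₃² - A₂ A₄) / (κ A₂²)` -/
noncomputable def yA (κ : ℝ) (A : R3) : ℝ := √((A.2.1 ^ 2 - A.2.2 * A.1) / (κ * A.1 ^ 2))

/-- the size with `A₂ = T q y² / 2` -/
noncomputable def TA (q κ : ℝ) (A : R3) : ℝ := 2 * A.1 / (q * yA κ A ^ 2)

/-- the shear with `A₃ = A₂ (- x + β y)` -/
noncomputable def xA (β κ : ℝ) (A : R3) : ℝ := -(A.2.1 / A.1) + β * yA κ A

/-- the frame with the coordinates `θ, A₂, A₃, A₄` -/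
noncomputable def fA (h : ℝ × ℝ → ℝ) (θ : ℝ) (A : R3) : Fr :=
  fr θ (yA (ka h θ) A) (TA (p2 h θ) (ka h θ) A) (xA (be h θ) (ka h θ) A)

/-- the phase `h (e₁ + τ e₂)` -/
noncomputable def hf (h : ℝ × ℝ → ℝ) (f : Fr) (τ : ℝ) : ℝ := h (f.1.1 + τ * f.2.1, f.1.2 + τ * f.2.2)

/-- the twentieth moment of a frame, relative to the slope `t₀` -/
noncomputable def mf (h : ℝ × ℝ → ℝ) (t₀ : ℝ) (S : Finset (ℤ × ℤ)) (f : Fr) : ℝ := m20 S (fun k => ee (uu 0 k * hf h f (tt 0 k - t₀)))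

/-- the twentieth moment of the family of frames in the coordinates `θ, A` -/
noncomputable def qf (h : ℝ × ℝ → ℝ) (θ t₀ : ℝ) (S : Finset (ℤ × ℤ)) (A : R3) : ℝ := mf h t₀ S (fA h θ A)

/-- the remainder after the terms of order at most four -/
noncomputable def er (h : ℝ × ℝ → ℝ) (θ : ℝ) (A : R3) (τ : ℝ) : ℝ :=
  hf h (fA h θ A) τ - (TA (p2 h θ) (ka h θ) A * sl h θ 0 +
    TA (p2 h θ) (ka h θ) A * (xA (be h θ) (ka h θ) A * sl h θ 0 + yA (ka h θ) A * deriv (sl h θ) 0) * τ +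
    A.1 * τ ^ 2 + A.2.1 * τ ^ 3 + A.2.2 * τ ^ 4)

/-- the frames of size `X` with positive determinant -/
def UP (B X : ℝ) : Set Fr :=
  {f | |f.1.1| ≤ B * X ∧ |f.1.2| ≤ B * X ∧ |f.2.1| ≤ B * X ∧ |f.2.2| ≤ B * X ∧ X ^ 2 ≤ B * df f}

/-- the integral of the twentieth moment over the frames of size `X` -/
noncomputable def IH (h : ℝ × ℝ → ℝ) (B X : ℝ) (S : Finset (ℤ × ℤ)) : ENNReal :=
  ∫⁻ f in UP B X, ENNReal.ofReal (m20 S (fun k => ee (h (vf f k))))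

end Pool.Agent.Helper3.AC
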