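import Pool.Agent.Helper3.AC.L6

/-!
# AC-Iter: the iteration for the phases of the class `HA`
-/

open MeasureTheory Real Set Filter Topology

set_option autoImplicit false

namespace Pool.Agent.Helper3.AC

open Pool.Agent.Helper22.AE
open Pool.Agent.Helper92.GC (dt tp Tq uu tt arc dd)
open Pool.Agent.Helper75.TW (m20 m20_nonneg m20_congr m20_cont_coef)
open Pool.Agent.Helper60.LT (Fr Tf xf yf df vf fr)
open Pool.Agent.Helper60.QL (R3 OM lf ln Cone Dec20)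

private theorem UP_mono {B B' X : ℝ} (hX : 0 < X) (h : B ≤ B') : UP B X ⊆ UP B' X := by
  rintro f ⟨h1, h2, h3, h4, h5⟩
  have hBX : B * X ≤ B' * X := mul_le_mul_of_nonneg_right h hX.le
  have hB : 0 ≤ B := by
    by_contra hcon
    push Not at hcon
    have := (abs_nonneg _).trans h1
    have := mul_neg_of_neg_of_pos hcon hX
    linarith
  have hd : 0 ≤ df f := by
    by_contra hcon
    push Not at hcon
    have := mul_nonpos_of_nonneg_of_nonpos hB hcon.le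
    have : 0 < X ^ 2 := by positivity
    linarith
  exact ⟨h1.trans hBX, h2.trans hBX, h3.trans hBX, h4.trans hBX, h5.trans (mul_le_mul_of_nonneg_right h hd)⟩

private theorem fh_meas {h : ℝ × ℝ → ℝ} (hc : Continuous h) (S : Finset (ℤ × ℤ)) :
    Measurable (fun f : Fr => ENNReal.ofReal (m20 S (fun k => ee (h (vf f k))))) := by
  refine (Continuous.measurable ?_).ennreal_ofReal
  refine m20_cont_coef S (fun (f : Fr) k => ee (h (vf f k))) fun k _ => ee_cont.comp (hc.comp ?_)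
  unfold vf
  fun_prop

theorem fam_IH {c₁ B₀ : ℝ} : Fam (fun i : {h : ℝ × ℝ → ℝ // HA c₁ B₀ h} => IH i.1) where
  empty := fun i B X => IH_empty i.1 B X
  mono := by
    intro i B B' X S hX h
    show IH i.1 B X S ≤ IH i.1 B' X S
    unfold IH
    rcases hX.lt_or_eq with hX | hX
    · exact lintegral_mono_set (UP_mono hX h)
    · refine lintegral_mono_set ?_
      rintro f ⟨h1, h2, h3, h4, h5⟩
      rw [← hX, mul_zero] at h1 h2 h3 h4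
      have e1 : f.1.1 = 0 := abs_nonpos_iff.1 h1
      have e2 : f.1.2 = 0 := abs_nonpos_iff.1 h2
      have e3 : f.2.1 = 0 := abs_nonpos_iff.1 h3
      have e4 : f.2.2 = 0 := abs_nonpos_iff.1 h4
      refine ⟨by rw [e1, ← hX]; simp, by rw [e2, ← hX]; simp, by rw [e3, ← hX]; simp, by rw [e4, ← hX]; simp, ?_⟩
      unfold df
      rw [e1, e2, ← hX]
      simp
  arcs := by
    intro i B X H lam S N hH hl hS hN
    show IH i.1 B X S ≤ ENNReal.ofReal ((N : ℝ) ^ 19) * ∑ r ∈ Finset.range N, IH i.1 B X (arc 0 S N r)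
    have hc := i.2.hom.cont
    unfold IH
    rw [← lintegral_finsetSum _ (fun r _ => fh_meas hc _), ← lintegral_const_mul]
    · refine lintegral_mono fun f => ?_
      rw [← ENNReal.ofReal_sum_of_nonneg (fun r _ => m20_nonneg _ _), ← ENNReal.ofReal_mul (by positivity)]
      exact ENNReal.ofReal_le_ofReal (Pool.Agent.Helper78.QL.m20_arcs hH hl hS hN _)
    · exact Finset.measurable_sum _ fun r _ => fh_meas hc _

theorem iter_of {η lam c₁ B₀ B : ℝ} (hη : 0 < η) (hl : 1 ≤ lam) (hB : 1 ≤ B)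
    (hd : ∀ ε : ℝ, 0 < ε → ∃ M : ℕ, 2 ≤ M ∧ ∃ C₀ : ℝ, 1 ≤ C₀ ∧ Dec20 ε lam M C₀)
    (hloc : ∀ B : ℝ, 1 ≤ B → ∃ C w₀ : ℝ, 1 ≤ C ∧ 0 < w₀ ∧ w₀ ≤ 1 ∧ Loc c₁ B₀ B lam C w₀)
    (hup : ∀ B : ℝ, 1 ≤ B → ∃ B' C : ℝ, B ≤ B' ∧ 1 ≤ C ∧ Up c₁ B₀ B B' C)
    (hlo : ∀ B : ℝ, 1 ≤ B → ∃ B' C : ℝ, B ≤ B' ∧ 1 ≤ C ∧ Lo c₁ B₀ B B' C) (hmes : Mes c₁ B₀) :
    ∃ (M : ℕ) (C B' : ℝ), 2 ≤ M ∧ 1 ≤ C ∧ B ≤ B' ∧ ∀ h : ℝ × ℝ → ℝ, HA c₁ B₀ h → ∀ (X H : ℝ) (S : Finset (ℤ × ℤ)), 1 ≤ X → 1 ≤ H → H ≤ X → Cone H lam S →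
      ∃ m : ℕ, X * H ≤ C * X ^ η * (M : ℝ) ^ (4 * m) ∧ (M : ℝ) ^ (4 * m) ≤ X * H ∧
        IH h B X S ^ (1 / 10 : ℝ) ≤ ENNReal.ofReal (C * X ^ η) * ∑ r ∈ Finset.range (M ^ m), (IH h B' X (arc 0 S (M ^ m) r) + 1) ^ (1 / 10 : ℝ) := by
  obtain ⟨M, C, B', hM, hC, hB', hit⟩ := iter_core (fam_IH (c₁ := c₁) (B₀ := B₀)) hη hl hB fun ε hε => by
    obtain ⟨M, hM, C₀, hC₀, hdec⟩ := hd ε hε
    exact ⟨M, hM, fun n B hB => step hl hB hM hC₀ hdec n hloc hup hlo hmes⟩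
  exact ⟨M, C, B', hM, hC, hB', fun h hh => hit ⟨h, hh⟩⟩

end Pool.Agent.Helper3.AC
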