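import Pool.Agent.Helper3.AC.Defs
import Pool.Agent.Helper78.QL.S1c

/-!
# AC-S1: the iteration for an abstract family of moments (as Helper78.QL.S1b, S1c)
-/

open MeasureTheory Real Set Filter Topology

set_option autoImplicit false

namespace Pool.Agent.Helper3.AC

open Pool.Agent.Helper22.AE
open Pool.Agent.Helper92.GC (dt tp Tq uu tt arc dd)
open Pool.Agent.Helper60.QL (R3 OM Cone)
open Pool.Agent.Helper78.QL (arc_arc arc_one root_sum card_le exJ lev lev_le lev_succ lev_ge lev_six lev_top six_five)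

/-- the properties of the family of moments that the iteration uses -/
structure Fam {ι : Type} (J : ι → ℝ → ℝ → Finset (ℤ × ℤ) → ENNReal) : Prop where
  empty : ∀ i B X, J i B X ∅ = 0
  mono : ∀ (i : ι) (B B' X : ℝ) (S : Finset (ℤ × ℤ)), 0 ≤ X → B ≤ B' → J i B X S ≤ J i B' X S
  arcs : ∀ (i : ι) (B X H lam : ℝ) (S : Finset (ℤ × ℤ)) (N : ℕ), 0 < H → 0 < lam → Cone H lam S → 1 ≤ N →
    J i B X S ≤ ENNReal.ofReal ((N : ℝ) ^ 19) * ∑ r ∈ Finset.range N, J i B X (arc 0 S N r)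

variable {ι : Type} {J : ι → ℝ → ℝ → Finset (ℤ × ℤ) → ENNReal}

theorem root_arcs (hJ : Fam J) {i : ι} {B X H lam : ℝ} {S : Finset (ℤ × ℤ)} (hH : 0 < H) (hl : 0 < lam) (hS : Cone H lam S) {N : ℕ} (hN : 1 ≤ N) :
    J i B X S ^ (1 / 10 : ℝ) ≤ ENNReal.ofReal ((N : ℝ) ^ (2 : ℕ)) * ∑ r ∈ Finset.range N, J i B X (arc 0 S N r) ^ (1 / 10 : ℝ) := by
  have hN0 : (1 : ℝ) ≤ N := by exact_mod_cast hN
  refine (ENNReal.rpow_le_rpow (hJ.arcs i B X H lam S N hH hl hS hN) (by norm_num)).trans ?_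
  rw [ENNReal.mul_rpow_of_nonneg _ _ (by norm_num)]
  refine mul_le_mul' ?_ (root_sum _ _)
  rw [ENNReal.ofReal_rpow_of_nonneg (by positivity) (by norm_num)]
  refine ENNReal.ofReal_le_ofReal ?_
  calc ((N : ℝ) ^ 19) ^ (1 / 10 : ℝ) ≤ ((N : ℝ) ^ 20) ^ (1 / 10 : ℝ) := by
        refine Real.rpow_le_rpow (by positivity) ?_ (by norm_num)
        exact pow_le_pow_right₀ hN0 (by norm_num)
    _ = (N : ℝ) ^ (2 : ℕ) := by
        rw [← Real.rpow_natCast (N : ℝ) 20, ← Real.rpow_mul (by positivity), ← Real.rpow_natCast (N : ℝ) 2]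
        norm_num

/-- the conclusion of the step -/
def StepAt (J : ι → ℝ → ℝ → Finset (ℤ × ℤ) → ENNReal) (ε lam : ℝ) (M n : ℕ) (B C B' E : ℝ) (m₀ : ℕ) : Prop :=
  ∀ (i : ι) (m m' r : ℕ) (X H κ : ℝ) (S : Finset (ℤ × ℤ)), m₀ ≤ m → m ≤ m' → 1 ≤ X → 1 ≤ H → C ≤ κ →
      Cone H lam S → C * κ * (M : ℝ) ^ (4 * m') ≤ X * H → C * κ * (M : ℝ) ^ (4 * m') ≤ (M : ℝ) ^ (5 * m) →
      J i B X (arc 0 S (M ^ m) r) ^ (1 / 10 : ℝ) ≤ ENNReal.ofReal (C * κ * (M : ℝ) ^ (ε * (m' : ℝ))) *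
        ∑ r' ∈ Finset.range (M ^ m'), (J i B' X (arc 0 (arc 0 S (M ^ m) r) (M ^ m') r') +
          ENNReal.ofReal (E * X ^ 4 * (S.card : ℝ) ^ 20 * κ⁻¹ ^ n)) ^ (1 / 10 : ℝ)

/-- the sum over the arcs of level `m` -/
noncomputable def QQ (J : ι → ℝ → ℝ → Finset (ℤ × ℤ) → ENNReal) (i : ι) (M : ℕ) (B X : ℝ) (S : Finset (ℤ × ℤ)) (m : ℕ) : ENNReal :=
  ∑ r ∈ Finset.range (M ^ m), (J i B X (arc 0 S (M ^ m) r) + 1) ^ (1 / 10 : ℝ)

theorem QQ_low (i : ι) {M : ℕ} (B X : ℝ) (S : Finset (ℤ × ℤ)) (m : ℕ) : ((M ^ m : ℕ) : ENNReal) ≤ QQ J i M B X S m := by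
  unfold QQ
  have h : ∀ r ∈ Finset.range (M ^ m), (1 : ENNReal) ≤ (J i B X (arc 0 S (M ^ m) r) + 1) ^ (1 / 10 : ℝ) := by
    intro r _
    calc (1 : ENNReal) = 1 ^ (1 / 10 : ℝ) := by rw [ENNReal.one_rpow]
      _ ≤ _ := ENNReal.rpow_le_rpow le_add_self (by norm_num)
  calc ((M ^ m : ℕ) : ENNReal) = ∑ r ∈ Finset.range (M ^ m), (1 : ENNReal) := by simp
    _ ≤ _ := Finset.sum_le_sum h

theorem QQ_ge (i : ι) {M : ℕ} (B X : ℝ) (S : Finset (ℤ × ℤ)) (m : ℕ) : ∑ r ∈ Finset.range (M ^ m), J i B X (arc 0 S (M ^ m) r) ^ (1 / 10 : ℝ) ≤ QQ J i M B X S m := by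
  unfold QQ
  exact Finset.sum_le_sum fun r _ => ENNReal.rpow_le_rpow le_self_add (by norm_num)

theorem QQ_step (hJ : Fam J) {i : ι} {ε lam B C B' E : ℝ} {M n m₀ : ℕ} (hε : 0 < ε) (hM : 2 ≤ M) (hC : 1 ≤ C) (hE : 1 ≤ E) (hs : StepAt J ε lam M n B C B' E m₀) {m m' : ℕ} {X H κ P : ℝ} {S : Finset (ℤ × ℤ)}
    (hm₀ : m₀ ≤ m) (hm : m ≤ m') (hX : 1 ≤ X) (hH : 1 ≤ H) (hκ : C ≤ κ) (hS : Cone H lam S) (h1 : C * κ * (M : ℝ) ^ (4 * m') ≤ X * H)
    (h2 : C * κ * (M : ℝ) ^ (4 * m') ≤ (M : ℝ) ^ (5 * m)) (hP : (M : ℝ) ^ (ε * (m' : ℝ)) ≤ P)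
    (ht : E * X ^ 4 * (S.card : ℝ) ^ 20 * κ⁻¹ ^ n * ((M : ℝ) ^ m * (M : ℝ) ^ m') ^ 10 ≤ 1) :
    QQ J i M B X S m ≤ ENNReal.ofReal (3 * C * κ * P) * QQ J i M B' X S m' := by
  have hM0 : (1 : ℝ) ≤ M := by
    have : 1 ≤ M := by omega
    exact_mod_cast this
  have hκ1 : 1 ≤ κ := hC.trans hκ
  obtain ⟨t, htd⟩ : ∃ t, t = E * X ^ 4 * (S.card : ℝ) ^ 20 * κ⁻¹ ^ n := ⟨_, rfl⟩
  have ht0 : 0 ≤ t := by rw [htd]; positivity
  obtain ⟨K, hK⟩ : ∃ K, K = ENNReal.ofReal (C * κ * P) := ⟨_, rfl⟩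
  have hP1 : 1 ≤ P := le_trans (Real.one_le_rpow hM0 (by positivity)) hP
  have hK1 : 1 ≤ K := by
    rw [hK, ENNReal.one_le_ofReal]
    have : 1 ≤ C * κ := one_le_mul_of_one_le_of_one_le hC hκ1
    exact one_le_mul_of_one_le_of_one_le this hP1
  have hone : ∀ r ∈ Finset.range (M ^ m), (J i B X (arc 0 S (M ^ m) r) + 1) ^ (1 / 10 : ℝ) ≤
      K * ∑ r' ∈ Finset.range (M ^ m'), (J i B' X (arc 0 (arc 0 S (M ^ m) r) (M ^ m') r') ^ (1 / 10 : ℝ) + ENNReal.ofReal t ^ (1 / 10 : ℝ)) + 1 := by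
    intro r _
    refine (ENNReal.rpow_add_le_add_rpow _ _ (by norm_num) (by norm_num)).trans ?_
    rw [ENNReal.one_rpow]
    refine add_le_add ?_ le_rfl
    refine (hs i m m' r X H κ S hm₀ hm hX hH hκ hS h1 h2).trans ?_
    rw [← htd, hK]
    refine mul_le_mul' (ENNReal.ofReal_le_ofReal (by gcongr)) ?_
    exact Finset.sum_le_sum fun r' _ => ENNReal.rpow_add_le_add_rpow _ _ (by norm_num) (by norm_num)
  have hsum : QQ J i M B X S m ≤ K * (∑ r ∈ Finset.range (M ^ m), ∑ r' ∈ Finset.range (M ^ m'), J i B' X (arc 0 (arc 0 S (M ^ m) r) (M ^ m') r') ^ (1 / 10 : ℝ)) +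
      K * (((M ^ m : ℕ) : ENNReal) * (((M ^ m' : ℕ) : ENNReal) * ENNReal.ofReal t ^ (1 / 10 : ℝ))) + ((M ^ m : ℕ) : ENNReal) := by
    unfold QQ
    refine (Finset.sum_le_sum hone).trans (le_of_eq ?_)
    rw [Finset.sum_add_distrib, ← Finset.mul_sum, Finset.sum_const, Finset.card_range, nsmul_eq_mul, mul_one]
    congr 1
    rw [← mul_add]
    congr 1
    simp only [Finset.sum_add_distrib, Finset.sum_const, Finset.card_range, nsmul_eq_mul]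
  have hdbl : ∑ r ∈ Finset.range (M ^ m), ∑ r' ∈ Finset.range (M ^ m'), J i B' X (arc 0 (arc 0 S (M ^ m) r) (M ^ m') r') ^ (1 / 10 : ℝ) ≤ QQ J i M B' X S m' := by
    rw [Finset.sum_comm]
    refine le_trans (Finset.sum_le_sum fun r' _ => ?_) (QQ_ge i B' X S m')
    have e : ∀ r : ℕ, J i B' X (arc 0 (arc 0 S (M ^ m) r) (M ^ m') r') ^ (1 / 10 : ℝ) =
        if r' / M ^ (m' - m) = r then J i B' X (arc 0 S (M ^ m') r') ^ (1 / 10 : ℝ) else 0 := by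
      intro r
      rw [arc_arc (by omega) hm]
      split_ifs
      · rfl
      · rw [hJ.empty, ENNReal.zero_rpow_of_pos (by norm_num)]
    simp only [e]
    rw [Finset.sum_ite_eq]
    split_ifs
    · exact le_rfl
    · exact zero_le
  have htail : ((M ^ m : ℕ) : ENNReal) * (((M ^ m' : ℕ) : ENNReal) * ENNReal.ofReal t ^ (1 / 10 : ℝ)) ≤ 1 := by
    have c1 : ((M ^ m : ℕ) : ENNReal) = ENNReal.ofReal ((M : ℝ) ^ m) := by
      rw [← ENNReal.ofReal_natCast]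
      push_cast
      rfl
    have c2 : ((M ^ m' : ℕ) : ENNReal) = ENNReal.ofReal ((M : ℝ) ^ m') := by
      rw [← ENNReal.ofReal_natCast]
      push_cast
      rfl
    rw [c1, c2, ENNReal.ofReal_rpow_of_nonneg ht0 (by norm_num), ← ENNReal.ofReal_mul (by positivity), ← ENNReal.ofReal_mul (by positivity),
      ENNReal.ofReal_le_one]
    have h3 : ((M : ℝ) ^ m * ((M : ℝ) ^ m' * t ^ (1 / 10 : ℝ))) ^ 10 ≤ 1 := by
      have h4 : (t ^ (1 / 10 : ℝ)) ^ 10 = t := by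
        rw [← Real.rpow_natCast, ← Real.rpow_mul ht0]
        norm_num
      calc ((M : ℝ) ^ m * ((M : ℝ) ^ m' * t ^ (1 / 10 : ℝ))) ^ 10 = (t ^ (1 / 10 : ℝ)) ^ 10 * ((M : ℝ) ^ m * (M : ℝ) ^ m') ^ 10 := by ring
        _ = t * ((M : ℝ) ^ m * (M : ℝ) ^ m') ^ 10 := by rw [h4]
        _ ≤ 1 := by rw [htd]; exact ht
    by_contra hcon
    push Not at hcon
    have := one_lt_pow₀ hcon (by norm_num : (10 : ℕ) ≠ 0)
    linarith
  have hmm : ((M ^ m : ℕ) : ENNReal) ≤ QQ J i M B' X S m' := by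
    refine le_trans ?_ (QQ_low i B' X S m')
    exact_mod_cast Nat.pow_le_pow_right (by omega) hm
  have hQ1 : 1 ≤ QQ J i M B' X S m' := by
    refine le_trans ?_ (QQ_low i B' X S m')
    exact_mod_cast Nat.one_le_pow _ _ (by omega)
  have e3 : ENNReal.ofReal (3 * C * κ * P) = K + K + K := by
    rw [hK, ← ENNReal.ofReal_add (by positivity) (by positivity), ← ENNReal.ofReal_add (by positivity) (by positivity)]
    congr 1
    ring
  rw [e3, add_mul, add_mul]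
  refine hsum.trans (add_le_add (add_le_add (mul_le_mul' le_rfl hdbl) (mul_le_mul' le_rfl (htail.trans hQ1))) ?_)
  calc ((M ^ m : ℕ) : ENNReal) ≤ 1 * QQ J i M B' X S m' := by rw [one_mul]; exact hmm
    _ ≤ K * QQ J i M B' X S m' := mul_le_mul' hK1 le_rfl

/-- finitely many steps -/
theorem chain (hJ : Fam J) {ε lam : ℝ} {M n : ℕ} (hε : 0 < ε) (hM : 2 ≤ M)
    (hs : ∀ B : ℝ, 1 ≤ B → ∃ C B' E : ℝ, ∃ m₀ : ℕ, 1 ≤ C ∧ B ≤ B' ∧ 1 ≤ E ∧ StepAt J ε lam M n B C B' E m₀) (L : ℕ) :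
    ∀ B : ℝ, 1 ≤ B → ∃ C B' E : ℝ, ∃ m₀ : ℕ, 1 ≤ C ∧ B ≤ B' ∧ 1 ≤ E ∧ ∀ (i : ι) (μ : ℕ → ℕ) (X H κ P : ℝ) (S : Finset (ℤ × ℤ)),
      m₀ ≤ μ 0 → (∀ j, μ j ≤ μ (j + 1)) → 1 ≤ X → 1 ≤ H → C ≤ κ → Cone H lam S → 1 ≤ P → (∀ j < L, C * κ * (M : ℝ) ^ (4 * μ (j + 1)) ≤ X * H) →
      (∀ j < L, C * κ * (M : ℝ) ^ (4 * μ (j + 1)) ≤ (M : ℝ) ^ (5 * μ j)) → (∀ j < L, (M : ℝ) ^ (ε * (μ (j + 1) : ℝ)) ≤ P) →
      (∀ j < L, E * X ^ 4 * (S.card : ℝ) ^ 20 * κ⁻¹ ^ n * ((M : ℝ) ^ μ j * (M : ℝ) ^ μ (j + 1)) ^ 10 ≤ 1) →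
      QQ J i M B X S (μ 0) ≤ ENNReal.ofReal ((C * κ * P) ^ L) * QQ J i M B' X S (μ L) := by
  induction L with
  | zero =>
    intro B hB
    refine ⟨1, B, 1, 0, le_rfl, le_rfl, le_rfl, ?_⟩
    intro i μ X H κ P S _ _ _ _ _ _ _ _ _ _ _
    rw [pow_zero, ENNReal.ofReal_one, one_mul]
  | succ L ih =>
    intro B hB
    obtain ⟨C₁, B₁, E₁, n₁, hC₁, hB₁, hE₁, hs₁⟩ := hs B hB
    obtain ⟨C₂, B₂, E₂, n₂, hC₂, hB₂, hE₂, hs₂⟩ := ih B₁ (hB.trans hB₁)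
    refine ⟨max (3 * C₁) C₂, B₂, max E₁ E₂, max n₁ n₂, le_max_of_le_right hC₂, hB₁.trans hB₂, le_max_of_le_left hE₁, ?_⟩
    intro i μ X H κ P S hμ0 hμ hX hH hκ hS hP h1 h2 h3 h4
    obtain ⟨C, hC⟩ : ∃ C, C = max (3 * C₁) C₂ := ⟨_, rfl⟩
    obtain ⟨E, hE⟩ : ∃ E, E = max E₁ E₂ := ⟨_, rfl⟩
    rw [← hC] at hκ h1 h2
    rw [← hE] at h4
    rw [← hC]
    have hC3 : 3 * C₁ ≤ C := by rw [hC]; exact le_max_left _ _
    have hC2 : C₂ ≤ C := by rw [hC]; exact le_max_right _ _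
    have hE1 : E₁ ≤ E := by rw [hE]; exact le_max_left _ _
    have hE2 : E₂ ≤ E := by rw [hE]; exact le_max_right _ _
    have hC1 : C₁ ≤ C := by linarith
    have hCp : 0 < C := by linarith
    have hκ0 : 0 < κ := by linarith
    have hM0 : (0 : ℝ) < M := by
      have : 0 < M := by omega
      exact_mod_cast this
    have st1 : QQ J i M B X S (μ 0) ≤ ENNReal.ofReal (3 * C₁ * κ * P) * QQ J i M B₁ X S (μ 1) := by
      refine QQ_step hJ hε hM hC₁ hE₁ hs₁ ((le_max_left _ _).trans hμ0) (hμ 0) hX hH (hC1.trans hκ) hS ?_ ?_ (h3 0 (by omega)) ?_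
      · refine le_trans ?_ (h1 0 (by omega))
        gcongr
      · refine le_trans ?_ (h2 0 (by omega))
        gcongr
      · refine le_trans ?_ (h4 0 (by omega))
        gcongr
    have st2 : QQ J i M B₁ X S (μ 1) ≤ ENNReal.ofReal ((C₂ * κ * P) ^ L) * QQ J i M B₂ X S (μ (L + 1)) := by
      refine hs₂ i (fun j => μ (j + 1)) X H κ P S ?_ (fun j => hμ (j + 1)) hX hH (hC2.trans hκ) hS hP ?_ ?_ ?_ ?_
      · exact ((le_max_right _ _).trans hμ0).trans (hμ 0)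
      · intro j hj
        refine le_trans ?_ (h1 (j + 1) (by omega))
        gcongr
      · intro j hj
        refine le_trans ?_ (h2 (j + 1) (by omega))
        gcongr
      · intro j hj
        exact h3 (j + 1) (by omega)
      · intro j hj
        refine le_trans ?_ (h4 (j + 1) (by omega))
        gcongr
    refine st1.trans ((mul_le_mul' le_rfl st2).trans ?_)
    rw [← mul_assoc, ← ENNReal.ofReal_mul (by positivity)]
    refine mul_le_mul' (ENNReal.ofReal_le_ofReal ?_) le_rfl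
    rw [pow_succ']
    gcongr

theorem iter_core (hJ : Fam J) {η lam B : ℝ} (hη : 0 < η) (hl : 1 ≤ lam) (hB : 1 ≤ B)
    (hs : ∀ ε : ℝ, 0 < ε → ∃ M : ℕ, 2 ≤ M ∧ ∀ (n : ℕ) (B : ℝ), 1 ≤ B → ∃ C B' E : ℝ, ∃ m₀ : ℕ, 1 ≤ C ∧ B ≤ B' ∧ 1 ≤ E ∧ StepAt J ε lam M n B C B' E m₀) :
    ∃ (M : ℕ) (C B' : ℝ), 2 ≤ M ∧ 1 ≤ C ∧ B ≤ B' ∧ ∀ (i : ι) (X H : ℝ) (S : Finset (ℤ × ℤ)), 1 ≤ X → 1 ≤ H → H ≤ X → Cone H lam S →
      ∃ m : ℕ, X * H ≤ C * X ^ η * (M : ℝ) ^ (4 * m) ∧ (M : ℝ) ^ (4 * m) ≤ X * H ∧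
        J i B X S ^ (1 / 10 : ℝ) ≤ ENNReal.ofReal (C * X ^ η) * ∑ r ∈ Finset.range (M ^ m), (J i B' X (arc 0 S (M ^ m) r) + 1) ^ (1 / 10 : ℝ) := by
  obtain ⟨L, hL1, hL2⟩ := exJ hη
  obtain ⟨e, he⟩ : ∃ e, e = (10 / 11 : ℝ) ^ L := ⟨_, rfl⟩
  have he0 : 0 < e := by rw [he]; positivity
  rw [← he] at hL1 hL2
  obtain ⟨M, hM, hs⟩ := hs (2 * e) (by positivity)
  obtain ⟨n, hn⟩ : ∃ n : ℕ, n = ⌈60 / e⌉₊ := ⟨_, rfl⟩
  have hn60 : 60 ≤ e * n := by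
    have : 60 / e ≤ n := by rw [hn]; exact Nat.le_ceil _
    rwa [div_le_iff₀ he0, mul_comm] at this
  obtain ⟨C₁, B', E, m₀, hC₁, hB', hE, hch⟩ := chain hJ (by positivity : 0 < 2 * e) hM (hs n) L B hB
  have hM1 : (1 : ℝ) < M := by
    have : 1 < M := by omega
    exact_mod_cast this
  have hM0 : (0 : ℝ) < M := by linarith
  have ev : ∀ᶠ X : ℝ in atTop, C₁ ≤ X ^ e ∧ (M : ℝ) ^ (m₀ + 12) ≤ X ^ (100 * e) ∧ C₁ ≤ X ^ (1 / 2 : ℝ) ∧ (M : ℝ) ≤ X ^ e ∧ E * 49 ^ 20 * lam ^ 40 ≤ X := by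
    refine (((tendsto_rpow_atTop he0).eventually_ge_atTop C₁)).and (((tendsto_rpow_atTop (by positivity : 0 < 100 * e)).eventually_ge_atTop _).and
      (((tendsto_rpow_atTop (by norm_num : (0 : ℝ) < 1 / 2)).eventually_ge_atTop _).and
      (((tendsto_rpow_atTop he0).eventually_ge_atTop _).and (eventually_ge_atTop _))))
  obtain ⟨X₀, hX₀⟩ := eventually_atTop.1 ev
  obtain ⟨C, hC⟩ : ∃ C, C = max (max (X₀ ^ 2) 1) (max (C₁ ^ L) (C₁ * (M : ℝ) ^ 4)) := ⟨_, rfl⟩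
  have hCa : X₀ ^ 2 ≤ C := by rw [hC]; exact le_max_of_le_left (le_max_left _ _)
  have hCb : 1 ≤ C := by rw [hC]; exact le_max_of_le_left (le_max_right _ _)
  have hCc : C₁ ^ L ≤ C := by rw [hC]; exact le_max_of_le_right (le_max_left _ _)
  have hCd : C₁ * (M : ℝ) ^ 4 ≤ C := by rw [hC]; exact le_max_of_le_right (le_max_right _ _)
  refine ⟨M, C, B', hM, hCb, hB', ?_⟩
  intro i X H S hX hH hHX hS
  have hX0 : 0 < X := by linarith
  have hXη : 1 ≤ X ^ η := Real.one_le_rpow hX hη.le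
  have hXH1 : 1 ≤ X * H := one_le_mul_of_one_le_of_one_le hX hH
  rcases lt_or_ge X X₀ with hlt | hge
  · refine ⟨0, ?_, ?_, ?_⟩
    · rw [mul_zero, pow_zero, mul_one]
      calc X * H ≤ X₀ * X₀ := mul_le_mul hlt.le (hHX.trans hlt.le) (by linarith) (by linarith)
        _ = X₀ ^ 2 := by ring
        _ ≤ C := hCa
        _ ≤ C * X ^ η := le_mul_of_one_le_right (by linarith) hXη
    · rw [mul_zero, pow_zero]
      exact hXH1
    · rw [pow_zero, Finset.sum_range_one, arc_one (by linarith) (by linarith) hS]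
      have h1 : (1 : ENNReal) ≤ ENNReal.ofReal (C * X ^ η) := by
        rw [ENNReal.one_le_ofReal]
        exact one_le_mul_of_one_le_of_one_le hCb hXη
      calc J i B X S ^ (1 / 10 : ℝ) ≤ (J i B' X S + 1) ^ (1 / 10 : ℝ) := ENNReal.rpow_le_rpow ((hJ.mono i B B' X S hX0.le hB').trans le_self_add) (by norm_num)
        _ = 1 * (J i B' X S + 1) ^ (1 / 10 : ℝ) := by rw [one_mul]
        _ ≤ _ := mul_le_mul' h1 le_rfl
  · obtain ⟨ha, hb, hc, hd, hf⟩ := hX₀ X hge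
    obtain ⟨κ, hκ⟩ : ∃ κ, κ = X ^ e := ⟨_, rfl⟩
    have hκ1 : 1 ≤ κ := by rw [hκ]; exact Real.one_le_rpow hX he0.le
    have hκpow : ∀ i : ℕ, κ ^ i = X ^ (i * e) := by
      intro i
      rw [hκ, ← Real.rpow_natCast, ← Real.rpow_mul hX0.le]
      congr 1
      ring
    obtain ⟨m₁, hm₁a, hm₁b⟩ := exists_nat_pow_near (Real.one_le_rpow hX (by positivity : 0 ≤ 100 * e)) hM1
    have hxH : C₁ * κ * X ^ (400 * e) ≤ X * H := by
      have h1 : κ * X ^ (400 * e) = X ^ (401 * e) := by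
        rw [hκ, ← Real.rpow_add hX0]
        congr 1
        ring
      have h2 : X ^ (401 * e) ≤ X ^ (1 / 2 : ℝ) := Real.rpow_le_rpow_of_exponent_le hX (by linarith)
      have h3 : X ^ (1 / 2 : ℝ) * X ^ (1 / 2 : ℝ) = X := by
        rw [← Real.rpow_add hX0]
        norm_num
      calc C₁ * κ * X ^ (400 * e) = C₁ * X ^ (401 * e) := by rw [mul_assoc, h1]
        _ ≤ X ^ (1 / 2 : ℝ) * X ^ (1 / 2 : ℝ) := by gcongr
        _ = X := h3
        _ ≤ X * H := le_mul_of_one_le_right hX0.le hH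
    have hCκ : 0 < C₁ * κ := by positivity
    have hx2 : X ^ (400 * e) ≤ X * H / (C₁ * κ) := by
      rw [le_div_iff₀ hCκ, mul_comm]
      exact hxH
    obtain ⟨m₂, hm₂a, hm₂b⟩ := exists_nat_pow_near (le_trans (Real.one_le_rpow hX (by positivity : 0 ≤ 400 * e)) hx2)
      (one_lt_pow₀ hM1 (by norm_num : (4 : ℕ) ≠ 0))
    have hm01 : m₀ + 11 ≤ m₁ := by
      have := (pow_lt_pow_iff_right₀ hM1).1 (lt_of_le_of_lt hb hm₁b)
      omega
    have hm12 : m₁ ≤ m₂ := by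
      have h1 : ((M : ℝ) ^ 4) ^ m₁ ≤ X ^ (400 * e) := by
        rw [← pow_mul, mul_comm, pow_mul]
        calc ((M : ℝ) ^ m₁) ^ 4 ≤ (X ^ (100 * e)) ^ 4 := by gcongr
          _ = X ^ (400 * e) := by
            rw [← Real.rpow_natCast, ← Real.rpow_mul hX0.le]
            congr 1
            push_cast
            ring
      have h2 := lt_of_le_of_lt (h1.trans hx2) hm₂b
      have h3 := (pow_lt_pow_iff_right₀ (one_lt_pow₀ hM1 (by norm_num : (4 : ℕ) ≠ 0))).1 h2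
      omega
    have hm2XH : (M : ℝ) ^ (4 * m₂) * (C₁ * κ) ≤ X * H := by
      rw [le_div_iff₀ hCκ] at hm₂a
      rw [pow_mul]
      exact hm₂a
    have hCκ1 : 1 ≤ C₁ * κ := one_le_mul_of_one_le_of_one_le hC₁ hκ1
    have hm2XH' : (M : ℝ) ^ (4 * m₂) ≤ X * H := le_trans (le_mul_of_one_le_right (by positivity) hCκ1) hm2XH
    have hsq : ((M : ℝ) ^ m₂) ^ 2 ≤ X := by
      have h1 : (((M : ℝ) ^ m₂) ^ 2) ^ 2 ≤ X ^ 2 := by
        calc (((M : ℝ) ^ m₂) ^ 2) ^ 2 = (M : ℝ) ^ (4 * m₂) := by ring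
          _ ≤ X * H := hm2XH'
          _ ≤ X ^ 2 := by nlinarith
      exact le_of_sq_le_sq h1 hX0.le
    have hlev : ∀ j, (M : ℝ) ^ lev m₁ m₂ j ≤ (M : ℝ) ^ m₂ := fun j => pow_le_pow_right₀ hM1.le (lev_le hm12 j)
    have hratio : (100 * (10 / 11 : ℝ) ^ L) * m₂ < m₁ := by
      rw [← he]
      have h1 : X ^ (100 * e) < (M : ℝ) ^ (2 * m₁) := lt_of_lt_of_le hm₁b (pow_le_pow_right₀ hM1.le (by omega))
      have h2 : (((M : ℝ) ^ m₂) ^ 2) ^ (100 * e) ≤ X ^ (100 * e) := Real.rpow_le_rpow (by positivity) hsq (by positivity)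
      have h3 := lt_of_le_of_lt h2 h1
      rw [← pow_mul, ← Real.rpow_natCast (M : ℝ) (m₂ * 2), ← Real.rpow_mul hM0.le, ← Real.rpow_natCast (M : ℝ) (2 * m₁),
        Real.rpow_lt_rpow_left_iff hM1] at h3
      push_cast at h3
      linarith
    have htop : lev m₁ m₂ L = m₂ := lev_top hm12 (by omega) hratio
    have hMlow : κ ^ 10 ≤ (M : ℝ) ^ m₁ := by
      have h1 : κ ^ 10 * M ≤ X ^ (100 * e) := by
        calc κ ^ 10 * M ≤ κ ^ 10 * κ := by gcongr; rw [hκ]; exact hd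
          _ = κ ^ 11 := by ring
          _ = X ^ ((11 : ℕ) * e) := hκpow 11
          _ ≤ X ^ (100 * e) := Real.rpow_le_rpow_of_exponent_le hX (by push_cast; linarith)
      have h2 : κ ^ 10 * M < (M : ℝ) ^ m₁ * M := by
        rw [← pow_succ]
        exact lt_of_le_of_lt h1 hm₁b
      exact (lt_of_mul_lt_mul_right h2 hM0.le).le
    have hQ := hch i (lev m₁ m₂) X H κ κ S (by show m₀ ≤ m₁; omega) (lev_succ hm12) hX hH (by rw [hκ]; exact ha) hS hκ1 ?_ ?_ ?_ ?_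
    · rw [htop] at hQ
      change QQ J i M B X S m₁ ≤ _ at hQ
      refine ⟨m₂, ?_, hm2XH', ?_⟩
      · have h1 : X * H ≤ (M : ℝ) ^ (4 * (m₂ + 1)) * (C₁ * κ) := by
          rw [div_lt_iff₀ hCκ] at hm₂b
          rw [pow_mul]
          exact hm₂b.le
        have h2 : κ ≤ X ^ η := by
          rw [hκ]
          refine Real.rpow_le_rpow_of_exponent_le hX ?_
          have : (0 : ℝ) ≤ L := Nat.cast_nonneg L
          nlinarith
        calc X * H ≤ (M : ℝ) ^ (4 * (m₂ + 1)) * (C₁ * κ) := h1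
          _ = (C₁ * (M : ℝ) ^ 4) * κ * (M : ℝ) ^ (4 * m₂) := by ring
          _ ≤ C * X ^ η * (M : ℝ) ^ (4 * m₂) := by gcongr
      · have hHp : 0 < H := by linarith
        have hlp : 0 < lam := by linarith
        have h1 : J i B X S ^ (1 / 10 : ℝ) ≤ ENNReal.ofReal (((M : ℝ) ^ m₁) ^ 2) * QQ J i M B X S m₁ := by
          have h2 := root_arcs hJ (i := i) (B := B) (X := X) hHp hlp hS (N := M ^ m₁) (Nat.one_le_pow _ _ (by omega))
          push_cast at h2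
          exact h2.trans (mul_le_mul' le_rfl (QQ_ge i B X S m₁))
        refine h1.trans ((mul_le_mul' le_rfl hQ).trans ?_)
        rw [← mul_assoc, ← ENNReal.ofReal_mul (by positivity)]
        refine mul_le_mul' (ENNReal.ofReal_le_ofReal ?_) le_rfl
        have h3 : ((M : ℝ) ^ m₁) ^ 2 ≤ X ^ (200 * e) := by
          calc ((M : ℝ) ^ m₁) ^ 2 ≤ (X ^ (100 * e)) ^ 2 := by gcongr
            _ = X ^ (200 * e) := by
              rw [← Real.rpow_natCast, ← Real.rpow_mul hX0.le]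
              congr 1
              push_cast
              ring
        have h4 : (C₁ * κ * κ) ^ L = C₁ ^ L * X ^ ((2 * L : ℕ) * e) := by
          rw [← hκpow, pow_mul]
          ring
        calc ((M : ℝ) ^ m₁) ^ 2 * (C₁ * κ * κ) ^ L ≤ X ^ (200 * e) * (C₁ ^ L * X ^ ((2 * L : ℕ) * e)) := by rw [h4]; gcongr
          _ = C₁ ^ L * (X ^ (200 * e) * X ^ ((2 * L : ℕ) * e)) := by ring
          _ = C₁ ^ L * X ^ (200 * e + (2 * L : ℕ) * e) := by rw [← Real.rpow_add hX0]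
          _ ≤ C * X ^ η := by
            gcongr
            push_cast
            linarith
    · intro j _
      calc C₁ * κ * (M : ℝ) ^ (4 * lev m₁ m₂ (j + 1)) ≤ C₁ * κ * (M : ℝ) ^ (4 * m₂) :=
            mul_le_mul_of_nonneg_left (pow_le_pow_right₀ hM1.le (Nat.mul_le_mul_left 4 (lev_le hm12 (j + 1)))) hCκ.le
        _ = (M : ℝ) ^ (4 * m₂) * (C₁ * κ) := by ring
        _ ≤ X * H := hm2XH
    · intro j _
      exact six_five hM1.le (by linarith) (by rw [hκ]; exact ha) hMlow (lev_ge hm12 j) (lev_six m₁ m₂ j)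
    · intro j _
      have h1 : (M : ℝ) ^ (2 * e * (lev m₁ m₂ (j + 1) : ℝ)) = (((M : ℝ) ^ lev m₁ m₂ (j + 1)) ^ 2) ^ e := by
        rw [← pow_mul, ← Real.rpow_natCast, ← Real.rpow_mul hM0.le]
        congr 1
        push_cast
        ring
      rw [h1, hκ]
      refine Real.rpow_le_rpow (by positivity) (le_trans ?_ hsq) he0.le
      exact pow_le_pow_left₀ (by positivity) (hlev _) 2
    · intro j _
      have h1 : (M : ℝ) ^ lev m₁ m₂ j * (M : ℝ) ^ lev m₁ m₂ (j + 1) ≤ X := by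
        calc (M : ℝ) ^ lev m₁ m₂ j * (M : ℝ) ^ lev m₁ m₂ (j + 1) ≤ (M : ℝ) ^ m₂ * (M : ℝ) ^ m₂ :=
              mul_le_mul (hlev j) (hlev (j + 1)) (by positivity) (by positivity)
          _ = ((M : ℝ) ^ m₂) ^ 2 := by ring
          _ ≤ X := hsq
      have h2 : (S.card : ℝ) ≤ 49 * lam ^ 2 * X ^ 2 := (card_le hH hl hS).trans (by gcongr)
      have h3 : X ^ 60 ≤ κ ^ n := by
        rw [hκpow, ← Real.rpow_natCast X 60]
        refine Real.rpow_le_rpow_of_exponent_le hX ?_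
        push_cast
        linarith
      have h4 : κ⁻¹ ^ n ≤ (X ^ 60)⁻¹ := by
        rw [inv_pow]
        exact inv_anti₀ (by positivity) h3
      calc E * X ^ 4 * (S.card : ℝ) ^ 20 * κ⁻¹ ^ n * ((M : ℝ) ^ lev m₁ m₂ j * (M : ℝ) ^ lev m₁ m₂ (j + 1)) ^ 10 ≤
            E * X ^ 4 * (49 * lam ^ 2 * X ^ 2) ^ 20 * (X ^ 60)⁻¹ * X ^ 10 := by gcongr
        _ = (E * 49 ^ 20 * lam ^ 40) * (X ^ 6)⁻¹ := by
          field_simp
        _ ≤ X * (X ^ 6)⁻¹ := by gcongr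
        _ = (X ^ 5)⁻¹ := by
          field_simp
        _ ≤ 1 := inv_le_one_of_one_le₀ (one_le_pow₀ hX)

end Pool.Agent.Helper3.AC
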