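import Pool.Agent.Helper3.AC.Iter
import Pool.Agent.Helper36.AC.L3
import Pool.Agent.Helper86.AC.V
import Pool.Agent.Helper60.AC.Meas
import Pool.Agent.Helper60.AC.T3
import Pool.Agent.Helper82.QG.Hyp

/-!
# AC-Main: the iteration and the twentieth moment for ovals with nowhere vanishing affine curvature, without hypothesis
-/

open MeasureTheory Real Set Filter Topology

set_option autoImplicit false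

namespace Pool.Agent.Helper3.AC

open Pool.Agent.Helper22.AE
open Pool.Agent.Helper22.AC (ga)
open Pool.Agent.Helper92.GC (dt tp Tq uu tt arc dd m6)
open Pool.Agent.Helper75.TW (m20 J20 MomF)
open Pool.Agent.Helper60.LT (Fr Tf xf yf df vf fr sl Cv Hom)
open Pool.Agent.Helper60.QL (R3 OM lf ln Cone Dec20)

theorem iter {η lam c₁ B₀ B : ℝ} (hη : 0 < η) (hl : 1 ≤ lam) (hc : 0 < c₁) (hB₀ : 1 ≤ B₀) (hB : 1 ≤ B)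
    (hd : ∀ ε : ℝ, 0 < ε → ∃ M : ℕ, 2 ≤ M ∧ ∃ C₀ : ℝ, 1 ≤ C₀ ∧ Dec20 ε lam M C₀) :
    ∃ (M : ℕ) (C B' : ℝ), 2 ≤ M ∧ 1 ≤ C ∧ B ≤ B' ∧ ∀ h : ℝ × ℝ → ℝ, HA c₁ B₀ h → ∀ (X H : ℝ) (S : Finset (ℤ × ℤ)), 1 ≤ X → 1 ≤ H → H ≤ X → Cone H lam S →
      ∃ m : ℕ, X * H ≤ C * X ^ η * (M : ℝ) ^ (4 * m) ∧ (M : ℝ) ^ (4 * m) ≤ X * H ∧
        IH h B X S ^ (1 / 10 : ℝ) ≤ ENNReal.ofReal (C * X ^ η) * ∑ r ∈ Finset.range (M ^ m), (IH h B' X (arc 0 S (M ^ m) r) + 1) ^ (1 / 10 : ℝ) :=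
  iter_of hη hl hB hd (fun _ hB' => loc20 hc hB₀ hB' hl) (fun _ hB' => IH_up hc hB₀ hB') (fun _ hB' => IH_lo hc hB₀ hB')
    (fun _ hh t₀ S => qf_meas hh t₀ S)

theorem iter2 {c₁ B₀ : ℝ} (hc : 0 < c₁) (hB₀ : 1 ≤ B₀) : Iter2 c₁ B₀ := fun _ _ hη hB =>
  iter hη (by norm_num) hc hB₀ hB (Pool.Agent.Helper60.QL.dec20_all (by norm_num))

theorem mom_cone {ε c₁ B₀ B : ℝ} (hε : 0 < ε) (hc : 0 < c₁) (hB₀ : 1 ≤ B₀) (hB : 1 ≤ B) : ∃ C : ℝ, 1 ≤ C ∧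
    ∀ h : ℝ × ℝ → ℝ, HA c₁ B₀ h → ∀ (X H : ℝ) (S : Finset (ℤ × ℤ)), 1 ≤ X → 1 ≤ H → H ^ 3 ≤ X → Cone H 2 S →
      IH h B X S ≤ ENNReal.ofReal (C * X ^ (4 + ε) * (H ^ 20 + H ^ 34 * (X * H) ^ (-(7 / 4) : ℝ))) :=
  mom_cone_iter hε hc hB₀ hB (iter2 hc hB₀)

/-- the twentieth moment over compact sets of frames -/
theorem mom_cpt20 {c₁ B₀ : ℝ} (hc : 0 < c₁) (hB₀ : 1 ≤ B₀) : MomF J20 Pool.Agent.Helper60.QL.F20q (HA c₁ B₀) 0 (1 / 3) :=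
  mom_cpt20_iter hc hB₀ (iter2 hc hB₀)

end Pool.Agent.Helper3.AC
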