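import Pool.Agent.Helper3.AC.Defs
import Pool.Agent.Helper3.QL.O1
import Pool.Agent.Helper3.QL.W1

/-!
# AC-W1: the decoupling of the moment over the forms in a ball, for a fixed direction (as Helper3.QL.W1)
-/

open MeasureTheory Real Set Filter Topology

set_option autoImplicit false

namespace Pool.Agent.Helper3.AC

open Pool.Agent.Helper22.AE
open Pool.Agent.Helper92.GC (dt tp Tq uu tt arc dd)
open Pool.Agent.Helper75.TW (m20 IsMul20 m20_nonneg m20_cont_coef)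
open Pool.Agent.Helper60.QL (R3 OM lf ln cb Cone Dec20 boxdec)
open Pool.Agent.Helper3.QL (cb_ball lf_int lf_nonneg mem_cb)

theorem qf_nonneg (h : ℝ × ℝ → ℝ) (θ t₀ : ℝ) (S : Finset (ℤ × ℤ)) (A : R3) : 0 ≤ qf h θ t₀ S A := m20_nonneg _ _

/-- the statement of `loc20` with its constants -/
def Loc (c₁ B₀ B lam C w₀ : ℝ) : Prop :=
  ∀ h : ℝ × ℝ → ℝ, HA c₁ B₀ h → ∀ (θ X H w δ t₀ : ℝ) (A A' : R3) (S : Finset (ℤ × ℤ)),
    0 < X → 0 < H → 0 < w → w ≤ w₀ → A ∈ OM B X → A' ∈ OM B X → |A.1 - A'.1| ≤ δ * X → |A.2.1 - A'.2.1| ≤ δ * X → |A.2.2 - A'.2.2| ≤ δ * X →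
    (∀ k ∈ S, 0 < uu 0 k ∧ uu 0 k ≤ lam * H ∧ |tt 0 k - t₀| ≤ w) → δ * X * H * w ^ 5 ≤ 1 →
    qf h θ t₀ S A' ≤ C * lf t₀ S (fun k => ee (uu 0 k * hf h (fA h θ A) (tt 0 k - t₀))) (A' - A) ∧
    lf t₀ S (fun k => ee (uu 0 k * hf h (fA h θ A) (tt 0 k - t₀))) (A' - A) ≤ C * qf h θ t₀ S A'

theorem win {ε lam c₁ B₀ B C₀ : ℝ} {M : ℕ} (hl : 1 ≤ lam) (hM : 2 ≤ M) (hC₀ : 1 ≤ C₀) (hd : Dec20 ε lam M C₀) (n : ℕ) {C₃ w₀ : ℝ}
    (hC₃ : 1 ≤ C₃) (hw₀1 : w₀ ≤ 1) (hloc : Loc c₁ B₀ B lam C₃ w₀) :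
    ∃ K E : ℝ, 1 ≤ K ∧ 1 ≤ E ∧ ∀ h : ℝ × ℝ → ℝ, HA c₁ B₀ h → ∀ (m : ℕ) (X H r κ w t₀ θ : ℝ) (z : R3) (S : Finset (ℤ × ℤ)), 0 < X → 0 < H → 0 < r → 4 ≤ κ →
      0 < w → w ≤ w₀ → |t₀| ≤ 3 → Metric.closedBall z (κ * r) ⊆ OM B X → (∀ k ∈ S, H / lam ≤ uu 0 k ∧ uu 0 k ≤ lam * H ∧ |tt 0 k - t₀| ≤ w) →
      κ * r * H * w ^ 5 ≤ 1 → K * (M : ℝ) ^ (4 * m) ≤ H * r →
      (∫⁻ A in Metric.closedBall z r, ENNReal.ofReal (qf h θ t₀ S A)) ^ (1 / 10 : ℝ) ≤ ENNReal.ofReal (K * (M : ℝ) ^ (ε * (m : ℝ))) *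
        ∑ j ∈ Finset.range (M ^ m), ((∫⁻ A in Metric.closedBall z (κ * r), ENNReal.ofReal (qf h θ t₀ (arc 0 S (M ^ m) j) A)) +
          ENNReal.ofReal (E * r ^ 3 * (S.card : ℝ) ^ 20 * κ⁻¹ ^ n)) ^ (1 / 10 : ℝ) := by
  obtain ⟨C₄, E, hC₄, hE, hbox⟩ := boxdec hl hM hC₀ hd n
  refine ⟨C₃ * C₄, E, one_le_mul_of_one_le_of_one_le hC₃ hC₄, hE, ?_⟩
  intro h hh m X H r κ w t₀ θ z S hX hH hr hκ hw hww ht₀ hball hS hcond hM4
  have hκ0 : 0 < κ := by linarith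
  have hC₃0 : 0 < C₃ := by linarith
  have hC₄0 : 0 < C₄ := by linarith
  have hrκ : r ≤ κ * r := le_mul_of_one_le_left hr.le (by linarith)
  have hz : z ∈ OM B X := hball (Metric.mem_closedBall_self (by positivity))
  obtain ⟨a, ha⟩ : ∃ a : ℤ × ℤ → ℂ, a = fun k => ee (uu 0 k * hf h (fA h θ z) (tt 0 k - t₀)) := ⟨_, rfl⟩
  have ha1 : ∀ k, ‖a k‖ ≤ 1 := by
    intro k
    rw [ha]
    exact (ee_norm _).le
  -- comparison with the linear family on the big ball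
  have hcmp : ∀ S' ⊆ S, ∀ A ∈ Metric.closedBall z (κ * r), qf h θ t₀ S' A ≤ C₃ * lf t₀ S' a (A - z) ∧ lf t₀ S' a (A - z) ≤ C₃ * qf h θ t₀ S' A := by
    intro S' hS' A hA
    have hA1 : A ∈ cb z (κ * r) := by rw [cb_ball]; exact hA
    rw [mem_cb] at hA1
    have e : κ * r / X * X = κ * r := by field_simp
    rw [ha]
    refine hloc h hh θ X H w (κ * r / X) t₀ z A S' hX hH hw hww hz (hball hA) ?_ ?_ ?_ ?_ ?_
    · rw [e, abs_sub_comm]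
      exact hA1.1
    · rw [e, abs_sub_comm]
      exact hA1.2.1
    · rw [e, abs_sub_comm]
      exact hA1.2.2
    · intro k hk
      obtain ⟨h1, h2, h3⟩ := hS k (hS' hk)
      refine ⟨lt_of_lt_of_le (by positivity) h1, h2, h3⟩
    · rw [e]
      exact hcond
  have hlin : ∀ (S' : Finset (ℤ × ℤ)) (ρ : ℝ), 0 ≤ ∫ R in Metric.closedBall (0 : R3) ρ, lf t₀ S' a R :=
    fun S' ρ => integral_nonneg fun R => lf_nonneg t₀ S' a R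
  obtain ⟨tl, htl⟩ : ∃ tl : ℝ, tl = E * r ^ 3 * (S.card : ℝ) ^ 20 * κ⁻¹ ^ n := ⟨_, rfl⟩
  have htl0 : 0 ≤ tl := by rw [htl]; positivity
  -- the three steps
  have s1 : ∫⁻ A in Metric.closedBall z r, ENNReal.ofReal (qf h θ t₀ S A) ≤ ENNReal.ofReal (C₃ * ∫ R in Metric.closedBall (0 : R3) r, lf t₀ S a R) := by
    rw [ENNReal.ofReal_mul hC₃0.le, lf_int t₀ S a z r, ← lintegral_const_mul' _ _ ENNReal.ofReal_ne_top]
    refine setLIntegral_mono' measurableSet_closedBall fun A hA => ?_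
    rw [← ENNReal.ofReal_mul hC₃0.le]
    exact ENNReal.ofReal_le_ofReal (hcmp S (Finset.Subset.refl S) A (Metric.closedBall_subset_closedBall hrκ hA)).1
  have s2 := hbox m H r κ t₀ 0 a S ha1 ht₀ hH hr hκ (fun k hk => ⟨(hS k hk).1, (hS k hk).2.1, (hS k hk).2.2.trans (hww.trans hw₀1)⟩)
    (le_trans (by
      have : 0 ≤ C₄ * (M : ℝ) ^ (4 * m) := by positivity
      calc C₄ * (M : ℝ) ^ (4 * m) ≤ C₃ * (C₄ * (M : ℝ) ^ (4 * m)) := le_mul_of_one_le_left this hC₃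
        _ = C₃ * C₄ * (M : ℝ) ^ (4 * m) := by ring) hM4)
  rw [← htl] at s2
  have s3 : ∀ j, ENNReal.ofReal (∫ R in Metric.closedBall (0 : R3) (κ * r), lf t₀ (arc 0 S (M ^ m) j) a R) ≤
      ENNReal.ofReal C₃ * ∫⁻ A in Metric.closedBall z (κ * r), ENNReal.ofReal (qf h θ t₀ (arc 0 S (M ^ m) j) A) := by
    intro j
    rw [lf_int t₀ _ a z (κ * r), ← lintegral_const_mul' _ _ ENNReal.ofReal_ne_top]
    refine setLIntegral_mono' measurableSet_closedBall fun A hA => ?_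
    rw [← ENNReal.ofReal_mul hC₃0.le]
    refine ENNReal.ofReal_le_ofReal (hcmp _ ?_ A hA).2
    unfold arc
    exact Finset.filter_subset _ _
  have hC10 : C₃ ^ (1 / 10 : ℝ) * C₃ ^ (1 / 10 : ℝ) ≤ C₃ := by
    rw [← rpow_add hC₃0]
    calc C₃ ^ (1 / 10 + 1 / 10 : ℝ) ≤ C₃ ^ (1 : ℝ) := rpow_le_rpow_of_exponent_le hC₃ (by norm_num)
      _ = C₃ := rpow_one _
  have hterm : ∀ j, ENNReal.ofReal (((∫ R in Metric.closedBall (0 : R3) (κ * r), lf t₀ (arc 0 S (M ^ m) j) a R) + tl) ^ (1 / 10 : ℝ)) ≤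
      ENNReal.ofReal (C₃ ^ (1 / 10 : ℝ)) * ((∫⁻ A in Metric.closedBall z (κ * r), ENNReal.ofReal (qf h θ t₀ (arc 0 S (M ^ m) j) A)) +
          ENNReal.ofReal tl) ^ (1 / 10 : ℝ) := by
    intro j
    rw [← ENNReal.ofReal_rpow_of_nonneg (add_nonneg (hlin _ _) htl0) (by norm_num), ← ENNReal.ofReal_rpow_of_nonneg hC₃0.le (by norm_num),
      ← ENNReal.mul_rpow_of_nonneg _ _ (by norm_num : (0 : ℝ) ≤ 1 / 10)]
    refine ENNReal.rpow_le_rpow ?_ (by norm_num)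
    rw [ENNReal.ofReal_add (hlin _ _) htl0, mul_add]
    refine add_le_add (s3 j) ?_
    have h1 : (1 : ENNReal) ≤ ENNReal.ofReal C₃ := by
      rw [← ENNReal.ofReal_one]
      exact ENNReal.ofReal_le_ofReal hC₃
    exact le_mul_of_one_le_left' h1
  have hsum0 : ∀ j, 0 ≤ ((∫ R in Metric.closedBall (0 : R3) (κ * r), lf t₀ (arc 0 S (M ^ m) j) a R) + tl) ^ (1 / 10 : ℝ) :=
    fun j => rpow_nonneg (add_nonneg (hlin _ _) htl0) _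
  have hMm : 0 ≤ C₄ * (M : ℝ) ^ (ε * (m : ℝ)) := by positivity
  calc (∫⁻ A in Metric.closedBall z r, ENNReal.ofReal (qf h θ t₀ S A)) ^ (1 / 10 : ℝ)
      ≤ (ENNReal.ofReal (C₃ * ∫ R in Metric.closedBall (0 : R3) r, lf t₀ S a R)) ^ (1 / 10 : ℝ) := ENNReal.rpow_le_rpow s1 (by norm_num)
    _ = ENNReal.ofReal (C₃ ^ (1 / 10 : ℝ) * (∫ R in Metric.closedBall (0 : R3) r, lf t₀ S a R) ^ (1 / 10 : ℝ)) := by
        rw [ENNReal.ofReal_rpow_of_nonneg (mul_nonneg hC₃0.le (hlin _ _)) (by norm_num), mul_rpow hC₃0.le (hlin _ _)]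
    _ ≤ ENNReal.ofReal (C₃ ^ (1 / 10 : ℝ) * (C₄ * (M : ℝ) ^ (ε * (m : ℝ)) *
          ∑ j ∈ Finset.range (M ^ m), ((∫ R in Metric.closedBall (0 : R3) (κ * r), lf t₀ (arc 0 S (M ^ m) j) a R) + tl) ^ (1 / 10 : ℝ))) :=
        ENNReal.ofReal_le_ofReal (mul_le_mul_of_nonneg_left s2 (by positivity))
    _ = ENNReal.ofReal (C₃ ^ (1 / 10 : ℝ) * (C₄ * (M : ℝ) ^ (ε * (m : ℝ)))) *
          ∑ j ∈ Finset.range (M ^ m), ENNReal.ofReal (((∫ R in Metric.closedBall (0 : R3) (κ * r), lf t₀ (arc 0 S (M ^ m) j) a R) + tl) ^ (1 / 10 : ℝ)) := by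
        rw [← mul_assoc, ENNReal.ofReal_mul (by positivity), ENNReal.ofReal_sum_of_nonneg fun j _ => hsum0 j]
    _ ≤ ENNReal.ofReal (C₃ ^ (1 / 10 : ℝ) * (C₄ * (M : ℝ) ^ (ε * (m : ℝ)))) *
          ∑ j ∈ Finset.range (M ^ m), ENNReal.ofReal (C₃ ^ (1 / 10 : ℝ)) * ((∫⁻ A in Metric.closedBall z (κ * r), ENNReal.ofReal (qf h θ t₀ (arc 0 S (M ^ m) j) A)) +
          ENNReal.ofReal tl) ^ (1 / 10 : ℝ) := by
        refine mul_le_mul' le_rfl (Finset.sum_le_sum fun j _ => hterm j)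
    _ = ENNReal.ofReal ((C₃ ^ (1 / 10 : ℝ) * C₃ ^ (1 / 10 : ℝ)) * (C₄ * (M : ℝ) ^ (ε * (m : ℝ)))) *
          ∑ j ∈ Finset.range (M ^ m), ((∫⁻ A in Metric.closedBall z (κ * r), ENNReal.ofReal (qf h θ t₀ (arc 0 S (M ^ m) j) A)) +
          ENNReal.ofReal tl) ^ (1 / 10 : ℝ) := by
        rw [← Finset.mul_sum, ← mul_assoc, ← ENNReal.ofReal_mul (by positivity)]
        congr 2
        ring
    _ ≤ _ := by
        refine mul_le_mul' (ENNReal.ofReal_le_ofReal ?_) (by rw [← htl])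
        calc (C₃ ^ (1 / 10 : ℝ) * C₃ ^ (1 / 10 : ℝ)) * (C₄ * (M : ℝ) ^ (ε * (m : ℝ))) ≤ C₃ * (C₄ * (M : ℝ) ^ (ε * (m : ℝ))) :=
              mul_le_mul_of_nonneg_right hC10 hMm
          _ = C₃ * C₄ * (M : ℝ) ^ (ε * (m : ℝ)) := by ring

end Pool.Agent.Helper3.AC
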